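import Pool.Agent.MGP.Stmts

set_option autoImplicit false

namespace Pool.Agent.MGP.H77

theorem var : VarStmt := by
  intro N a b ha hNa hab h
  obtain ⟨x, rfl⟩ := Nat.exists_eq_add_of_le hNa
  obtain ⟨y, rfl⟩ := Nat.exists_eq_add_of_le hab
  have e1 : N + x + y - (N + x) = y := by omega
  have e2 : N + x + y - N = x + y := by omega
  have e3 : N + x - N = x := by omega
  unfold cl
  rw [e2, e3]
  rw [e1, e2] at h
  have h1 : x ^ 2 < (x ^ 2 / (2 * (N + x)) + 1) * (2 * (N + x)) :=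
    (Nat.div_lt_iff_lt_mul (by omega)).1 (Nat.lt_succ_self _)
  generalize x ^ 2 / (2 * (N + x)) = j at h1 ⊢
  refine Nat.lt_succ_iff.1 ((Nat.div_lt_iff_lt_mul (by omega)).2 ?_)
  have h2 : (x + y) ^ 2 ≤ x ^ 2 + 2 * (y * (x + y)) := by nlinarith
  have h3 : (j + 1) * (2 * (N + x)) ≤ (j + 1) * (2 * (N + x + y)) :=
    Nat.mul_le_mul_left _ (by omega)
  have h4 : (j + 1 + 1) * (2 * (N + x + y)) = (j + 1) * (2 * (N + x + y)) + 2 * (N + x + y) := by
    ring
  rw [Nat.succ_eq_add_one, h4]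
  omega

end Pool.Agent.MGP.H77
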